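import Pool.Agent.N600.L3.Stm

/-!
NOI: multiplicative noise makes coincidences less probable (finite rings).
-/

set_option autoImplicit false

namespace Pool.Agent.N49.L3

open Pool.Agent.N600.L3

universe u

theorem noi_sum {A : Type u} [AddCommGroup A] (ψ : AddChar A ℂ) {ι : Type} (s : Finset ι)
    (f : ι → A) : ψ (∑ i ∈ s, f i) = ∏ i ∈ s, ψ (f i) := by
  classical
  induction s using Finset.induction_on with
  | empty => simp
  | insert a s ha ih => rw [Finset.sum_insert ha, Finset.prod_insert ha, AddChar.map_add_eq_mul, ih]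

/-- counting by characters -/
theorem noi_count {A : Type u} [AddCommGroup A] [Fintype A] {R : ℕ} {T : Type} [Fintype T]
    (v : Fin R → T → A) :
    (Fintype.card A : ℂ) * (Nat.card {f : Fin R → T // ∑ r, v r (f r) = 0} : ℂ) =
      ∑ ψ : AddChar A ℂ, ∏ r, ∑ t, ψ (v r t) := by
  classical
  have h1 : ∀ ψ : AddChar A ℂ, ∏ r, ∑ t, ψ (v r t) = ∑ f : Fin R → T, ψ (∑ r, v r (f r)) := by
    intro ψ
    rw [Finset.prod_univ_sum, Fintype.piFinset_univ]
    apply Finset.sum_congr rfl
    intro f _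
    rw [noi_sum]
  rw [Finset.sum_congr rfl fun ψ _ => h1 ψ, Finset.sum_comm]
  simp_rw [AddChar.sum_apply_eq_ite]
  rw [Finset.sum_ite, Finset.sum_const_zero, add_zero, Finset.sum_const, nsmul_eq_mul, mul_comm,
    Nat.card_eq_fintype_card, Fintype.card_subtype]

/-- the defect of a character -/
noncomputable def noi_x {A : Type u} [AddCommGroup A] (ψ : AddChar A ℂ) (a : A) : ℝ :=
  (1 - (ψ a).re) / 2

theorem noi_mem {A : Type u} [AddCommGroup A] [Finite A] (ψ : AddChar A ℂ) (a : A) :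
    0 ≤ noi_x ψ a ∧ noi_x ψ a ≤ 1 := by
  have h1 : ‖ψ a‖ = 1 := AddChar.norm_apply ψ a
  have h2 := Complex.abs_re_le_norm (ψ a)
  rw [h1, abs_le] at h2
  unfold noi_x
  constructor <;> linarith [h2.1, h2.2]

theorem noi_add {A : Type u} [AddCommGroup A] [Finite A] (ψ : AddChar A ℂ) (a : A) :
    ψ a + ψ (-a) = ((2 - 4 * noi_x ψ a : ℝ) : ℂ) := by
  rw [AddChar.map_neg_eq_conj, Complex.add_conj]
  congr 1
  unfold noi_x
  ring

theorem t_noi (h : S_RI) : S_NOI.{u} := by
  classical
  intro A _ _ R e S _ _ σ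
  have _ : Fintype A := Fintype.ofFinite A
  set c : ℕ := Fintype.card S with hc
  have hc0 : (0 : ℝ) < c := by
    have : 0 < Fintype.card S := Fintype.card_pos
    exact_mod_cast this
  set a : ℕ := Fintype.card A with ha
  have ha0 : (0 : ℝ) < a := by
    have : 0 < Fintype.card A := Fintype.card_pos
    exact_mod_cast this
  set N1 := Nat.card {f : Fin R → S × Bool × Bool // ∑ r : Fin R, e r * (σ (f r).1 : A) *
        ((if (f r).2.1 then 1 else 0) - (if (f r).2.2 then 1 else 0)) = 0} with hN1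
  set N2 := Nat.card {g : Fin R → Bool × Bool × Bool //
    ∑ r : Fin R, e r * ((ee (g r) : ℤ) : A) = 0} with hN2
  -- the two counts
  have h1 : (a : ℝ) * N1 = ∑ ψ : AddChar A ℂ,
      (4 * (c : ℝ)) ^ R * ∏ r : Fin R, (1 - (∑ s, noi_x ψ (e r * (σ s : A))) / c) := by
    have h2 : (a : ℂ) * (N1 : ℂ) = _ := noi_count (A := A) (R := R) (T := S × Bool × Bool) (fun r t =>
      e r * (σ t.1 : A) * ((if t.2.1 then 1 else 0) - (if t.2.2 then 1 else 0)))
    have h3 : ∀ ψ : AddChar A ℂ, ∏ r : Fin R, ∑ t : S × Bool × Bool,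
        ψ (e r * (σ t.1 : A) * ((if t.2.1 then 1 else 0) - (if t.2.2 then 1 else 0))) =
        (((4 * (c : ℝ)) ^ R * ∏ r : Fin R, (1 - (∑ s, noi_x ψ (e r * (σ s : A))) / c) : ℝ) : ℂ) := by
      intro ψ
      have h4 : ∀ r : Fin R, ∑ t : S × Bool × Bool,
        ψ (e r * (σ t.1 : A) * ((if t.2.1 then 1 else 0) - (if t.2.2 then 1 else 0))) =
        ((4 * (c : ℝ) * (1 - (∑ s, noi_x ψ (e r * (σ s : A))) / c) : ℝ) : ℂ) := by
        intro r
        rw [Fintype.sum_prod_type]
        have h5 : ∀ s : S, ∑ t : Bool × Bool, ψ (e r * (σ s : A) *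
            ((if t.1 then 1 else 0) - (if t.2 then 1 else 0))) =
            ((4 - 4 * noi_x ψ (e r * (σ s : A)) : ℝ) : ℂ) := by
          intro s
          rw [Fintype.sum_prod_type]
          simp only [Fintype.sum_bool, if_true, sub_self, sub_zero, zero_sub, mul_zero, mul_one,
            mul_neg, AddChar.map_zero_eq_one, Bool.false_eq_true, if_false]
          have h6 := noi_add ψ (e r * (σ s : A))
          have e1 : (((4 - 4 * noi_x ψ (e r * (σ s : A)) : ℝ)) : ℂ) =
              2 + ((2 - 4 * noi_x ψ (e r * (σ s : A)) : ℝ) : ℂ) := by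
            push_cast
            ring
          rw [e1, ← h6]
          ring
        rw [Finset.sum_congr rfl fun s _ => h5 s, ← Complex.ofReal_sum]
        congr 1
        rw [Finset.sum_sub_distrib, Finset.sum_const, Finset.card_univ, ← hc, nsmul_eq_mul,
          ← Finset.mul_sum]
        field_simp
      rw [Finset.prod_congr rfl fun r _ => h4 r, ← Complex.ofReal_prod]
      congr 1
      rw [Finset.prod_mul_distrib, Finset.prod_const, Finset.card_univ, Fintype.card_fin]
    rw [Finset.sum_congr rfl fun ψ _ => h3 ψ, ← Complex.ofReal_sum] at h2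
    exact_mod_cast h2
  have h2 : (a : ℝ) * N2 = ∑ ψ : AddChar A ℂ,
      (8 : ℝ) ^ R * ∏ r : Fin R, (1 - noi_x ψ (e r) / 2) := by
    have h2 : (a : ℂ) * (N2 : ℂ) = _ := noi_count (A := A) (R := R) (T := Bool × Bool × Bool) (fun r g =>
      e r * ((ee g : ℤ) : A))
    have h3 : ∀ ψ : AddChar A ℂ, ∏ r : Fin R, ∑ g : Bool × Bool × Bool,
        ψ (e r * ((ee g : ℤ) : A)) =
        (((8 : ℝ) ^ R * ∏ r : Fin R, (1 - noi_x ψ (e r) / 2) : ℝ) : ℂ) := by
      intro ψ
      have h4 : ∀ r : Fin R, ∑ g : Bool × Bool × Bool, ψ (e r * ((ee g : ℤ) : A)) =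
        ((8 * (1 - noi_x ψ (e r) / 2) : ℝ) : ℂ) := by
        intro r
        rw [Fintype.sum_prod_type]
        simp only [Fintype.sum_prod_type]
        simp only [Fintype.sum_bool, ee, if_true, sub_self, sub_zero, zero_sub, mul_zero, mul_one,
            mul_neg, AddChar.map_zero_eq_one, Bool.false_eq_true, if_false, Int.cast_zero,
            Int.cast_one, Int.cast_neg]
        have h6 := noi_add ψ (e r)
        have e1 : ((8 * (1 - noi_x ψ (e r) / 2) : ℝ) : ℂ) =
              6 + ((2 - 4 * noi_x ψ (e r) : ℝ) : ℂ) := by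
            push_cast
            ring
        rw [e1, ← h6]
        ring
      rw [Finset.prod_congr rfl fun r _ => h4 r, ← Complex.ofReal_prod]
      congr 1
      rw [Finset.prod_mul_distrib, Finset.prod_const, Finset.card_univ, Fintype.card_fin]
    rw [Finset.sum_congr rfl fun ψ _ => h3 ψ, ← Complex.ofReal_sum] at h2
    exact_mod_cast h2
  -- the change of the character
  set Q : ℝ := ∑ ψ : AddChar A ℂ, ∏ r : Fin R, (1 - noi_x ψ (e r) / 2) with hQ
  have h3 : ∀ s : S, ∑ ψ : AddChar A ℂ, ∏ r : Fin R, (1 - noi_x ψ (e r * (σ s : A)) / 2) = Q := by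
    intro s
    let Φ : AddChar A ℂ ≃ AddChar A ℂ :=
      { toFun := fun ψ => AddChar.mulShift ψ (σ s : A)
        invFun := fun ψ => AddChar.mulShift ψ (((σ s)⁻¹ : Aˣ) : A)
        left_inv := by
          intro ψ
          ext x
          rw [AddChar.mulShift_apply, AddChar.mulShift_apply, ← mul_assoc, Units.mul_inv, one_mul]
        right_inv := by
          intro ψ
          ext x
          rw [AddChar.mulShift_apply, AddChar.mulShift_apply, ← mul_assoc, Units.inv_mul, one_mul] }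
    refine Fintype.sum_equiv Φ _ _ fun ψ => ?_
    apply Finset.prod_congr rfl
    intro r _
    have h4 : (Φ ψ) (e r) = ψ (e r * (σ s : A)) := by
      change AddChar.mulShift ψ (σ s : A) (e r) = _
      rw [AddChar.mulShift_apply, mul_comm]
    unfold noi_x
    rw [h4]
  have h4 : ∑ ψ : AddChar A ℂ, ∏ r : Fin R, (1 - (∑ s, noi_x ψ (e r * (σ s : A))) / c) ≤ Q := by
    have h5 : (c : ℝ) * ∑ ψ : AddChar A ℂ,
        ∏ r : Fin R, (1 - (∑ s, noi_x ψ (e r * (σ s : A))) / c) ≤ c * Q := by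
      rw [Finset.mul_sum]
      calc ∑ ψ : AddChar A ℂ, (c : ℝ) * ∏ r : Fin R, (1 - (∑ s, noi_x ψ (e r * (σ s : A))) / c)
          ≤ ∑ ψ : AddChar A ℂ, ∑ s : S, ∏ r : Fin R, (1 - noi_x ψ (e r * (σ s : A)) / 2) :=
            Finset.sum_le_sum fun ψ _ => h R S (fun r s => noi_x ψ (e r * (σ s : A)))
              fun r s => noi_mem ψ _
        _ = ∑ s : S, ∑ ψ : AddChar A ℂ, ∏ r : Fin R, (1 - noi_x ψ (e r * (σ s : A)) / 2) :=
            Finset.sum_comm
        _ = c * Q := by
            rw [Finset.sum_congr rfl fun s _ => h3 s, Finset.sum_const, Finset.card_univ, ← hc,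
              nsmul_eq_mul]
    exact le_of_mul_le_mul_left h5 hc0
  rw [← Finset.mul_sum] at h1 h2
  have h5 : (a : ℝ) * (8 ^ R * N1) ≤ a * ((4 * c) ^ R * N2) := by
    have e1 : (a : ℝ) * (8 ^ R * N1) = 8 ^ R * (a * N1) := by ring
    have e2 : (a : ℝ) * ((4 * c) ^ R * N2) = (4 * c) ^ R * (a * N2) := by ring
    rw [e1, e2, h1, h2, ← mul_assoc, ← mul_assoc, mul_comm ((8 : ℝ) ^ R)]
    exact mul_le_mul_of_nonneg_left h4 (by positivity)
  have h6 := le_of_mul_le_mul_left h5 ha0
  exact_mod_cast h6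

end Pool.Agent.N49.L3
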